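import Pool.Agent.R489.HB.Stm

set_option autoImplicit false

namespace Pool.Agent.R18.HB

open Finset Pool.Agent.R489.HB

section

variable {W : Type} [DecidableEq W]

theorem mem_edg {Φ : Finset (Finset W)} {e : Finset W} :
    e ∈ edg Φ ↔ ∃ f ∈ Φ, e ⊆ f ∧ e.card = 2 := by
  simp [edg, Finset.mem_powersetCard]

theorem mem_fc {Φ : Finset (Finset W)} {e f : Finset W} :
    f ∈ fc Φ e ↔ f ∈ Φ ∧ e ⊆ f := by
  simp [fc]

theorem pair_mem_edg {Φ : Finset (Finset W)} {f : Finset W} (hf : f ∈ Φ) {x y : W} (hx : x ∈ f)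
    (hy : y ∈ f) (hxy : x ≠ y) : {x, y} ∈ edg Φ :=
  mem_edg.2 ⟨f, hf, by
    intro z hz
    simp only [Finset.mem_insert, Finset.mem_singleton] at hz
    rcases hz with rfl | rfl <;> assumption, Finset.card_pair hxy⟩

theorem third {f : Finset W} {u v : W} (hf : f.card = 3) (hu : u ∈ f) (hv : v ∈ f)
    (huv : u ≠ v) : ∃ y, y ≠ u ∧ y ≠ v ∧ f = {u, v, y} := by
  have h1 : ((f.erase u).erase v).card = 1 := by
    rw [Finset.card_erase_of_mem (Finset.mem_erase.2 ⟨huv.symm, hv⟩), Finset.card_erase_of_mem hu,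
      hf]
  obtain ⟨y, hy⟩ := Finset.card_eq_one.1 h1
  have hy' : y ∈ (f.erase u).erase v := by rw [hy]; simp
  rw [Finset.mem_erase, Finset.mem_erase] at hy'
  refine ⟨y, hy'.2.1, hy'.1, ?_⟩
  have h2 : f = insert u (insert v ((f.erase u).erase v)) := by
    rw [Finset.insert_erase (Finset.mem_erase.2 ⟨huv.symm, hv⟩), Finset.insert_erase hu]
  rw [h2, hy]

theorem other {Φ : Finset (Finset W)} (h : IsTri Φ) {p q r : W} (hpq : p ≠ q) (hrp : r ≠ p)
    (hrq : r ≠ q) {f : Finset W} (hf : f ∈ Φ) (hp : p ∈ f) (hq : q ∈ f) (hr : r ∈ f) :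
    ∃ g, fc Φ {p, q} = {f, g} ∧ r ∉ g := by
  have he : {p, q} ∈ edg Φ := pair_mem_edg hf hp hq hpq
  obtain ⟨a, b, hab, hfc⟩ := Finset.card_eq_two.1 (h.two _ he)
  have key : ∀ g, g ∈ fc Φ {p, q} → g ≠ f → r ∉ g := by
    intro g hg hgf hrg
    rw [mem_fc] at hg
    apply hgf
    have h3 : ({p, q, r} : Finset W).card = 3 := by
      rw [Finset.card_eq_three]
      exact ⟨p, q, r, hpq, hrp.symm, hrq.symm, rfl⟩
    have e1 : ({p, q, r} : Finset W) = f := by
      apply Finset.eq_of_subset_of_card_le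
      · intro z hz
        simp only [Finset.mem_insert, Finset.mem_singleton] at hz
        rcases hz with rfl | rfl | rfl <;> assumption
      · rw [h3, h.three f hf]
    have e2 : ({p, q, r} : Finset W) = g := by
      apply Finset.eq_of_subset_of_card_le
      · intro z hz
        simp only [Finset.mem_insert, Finset.mem_singleton] at hz
        rcases hz with rfl | rfl | rfl
        · exact hg.2 (by simp)
        · exact hg.2 (by simp)
        · exact hrg
      · rw [h3, h.three g hg.1]
    rw [← e1, ← e2]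
  have hf' : f ∈ fc Φ {p, q} := mem_fc.2 ⟨hf, by
    intro z hz
    simp only [Finset.mem_insert, Finset.mem_singleton] at hz
    rcases hz with rfl | rfl <;> assumption⟩
  rw [hfc] at hf' key
  simp only [Finset.mem_insert, Finset.mem_singleton] at hf'
  rcases hf' with rfl | rfl
  · exact ⟨b, hfc, key b (by simp) hab.symm⟩
  · exact ⟨a, by rw [hfc, Finset.pair_comm], key a (by simp) hab⟩

/-- the tetrahedron is the whole sphere -/
theorem tetra {Φ : Finset (Finset W)} (h : IsTri Φ) (K : Finset W) (hK : K.card = 4)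
    (hsub : ∀ x ∈ K, K.erase x ∈ Φ) : (vts Φ).card ≤ 4 := by
  have hne : K.image (fun x => K.erase x) ≠ ∅ := by
    have : K.Nonempty := Finset.card_pos.1 (by omega)
    exact (this.image _).ne_empty
  have hev : ∀ e ∈ edg Φ, Even (fc (K.image (fun x => K.erase x)) e).card := by
    intro e he
    obtain ⟨f, -, -, he2⟩ := mem_edg.1 he
    by_cases heK : e ⊆ K
    · have : fc (K.image (fun x => K.erase x)) e = (K \ e).image (fun x => K.erase x) := by
        ext g
        simp only [mem_fc, Finset.mem_image, Finset.mem_sdiff]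
        constructor
        · rintro ⟨⟨x, hx, rfl⟩, hg⟩
          exact ⟨x, ⟨hx, fun hxe => by simpa using hg hxe⟩, rfl⟩
        · rintro ⟨x, ⟨hx, hxe⟩, rfl⟩
          refine ⟨⟨x, hx, rfl⟩, ?_⟩
          intro z hz
          exact Finset.mem_erase.2 ⟨fun hzx => hxe (hzx ▸ hz), heK hz⟩
      rw [this, Finset.card_image_of_injOn, Finset.card_sdiff_of_subset heK, hK, he2]
      · decide
      · exact (Finset.erase_injOn K).mono (by
          intro z hz
          simp only [Finset.coe_sdiff, Set.mem_sdiff, Finset.mem_coe] at hz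
          exact hz.1)
    · have : fc (K.image (fun x => K.erase x)) e = ∅ := by
        rw [Finset.eq_empty_iff_forall_notMem]
        intro g hg
        simp only [mem_fc, Finset.mem_image] at hg
        obtain ⟨⟨x, hx, rfl⟩, hg⟩ := hg
        exact heK (hg.trans (Finset.erase_subset _ _))
      rw [this]
      simp
  rcases h.conn (K.image (fun x => K.erase x)) (by
    intro g hg
    obtain ⟨x, hx, rfl⟩ := Finset.mem_image.1 hg
    exact hsub x hx) hev with h0 | h0
  · exact absurd h0 hne
  · rw [← hK]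
    apply Finset.card_le_card
    intro z hz
    simp only [vts, Finset.mem_biUnion, id] at hz
    obtain ⟨f, hf, hz⟩ := hz
    rw [← h0] at hf
    obtain ⟨x, hx, rfl⟩ := Finset.mem_image.1 hf
    exact Finset.mem_of_mem_erase hz

theorem no_dup {Φ : Finset (Finset W)} {u v : W} (h : IsTri Φ) (huv : u ≠ v)
    (hG : Good Φ u v) (h5 : 5 ≤ (vts Φ).card) (f f' : Finset W) (hf : f ∈ Φ) (hf' : f' ∈ Φ)
    (hvf : v ∈ f) (huf : u ∉ f) (he : insert u (f.erase v) = f') : False := by
  obtain ⟨b, c, hbc, hfe⟩ := Finset.card_eq_two.1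
    (show (f.erase v).card = 2 by rw [Finset.card_erase_of_mem hvf, h.three f hf])
  have hb : b ∈ f.erase v := by rw [hfe]; simp
  have hc : c ∈ f.erase v := by rw [hfe]; simp
  rw [Finset.mem_erase] at hb hc
  have hbu : b ≠ u := fun e => huf (e ▸ hb.2)
  have hcu : c ≠ u := fun e => huf (e ▸ hc.2)
  have hb' : b ∈ f' := by rw [← he, hfe]; simp
  have hc' : c ∈ f' := by rw [← he, hfe]; simp
  have hu' : u ∈ f' := by rw [← he]; simp
  have hfb : {u, v, b} ∈ Φ := hG b hbu hb.1 (pair_mem_edg hf' hu' hb' hbu.symm)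
    (pair_mem_edg hf hvf hb.2 hb.1.symm)
  have hfc : {u, v, c} ∈ Φ := hG c hcu hc.1 (pair_mem_edg hf' hu' hc' hcu.symm)
    (pair_mem_edg hf hvf hc.2 hc.1.symm)
  have hf1 : f = {v, b, c} := by
    rw [← Finset.insert_erase hvf, hfe]
  have hf2 : f' = {u, b, c} := by
    rw [← he, hfe]
  have hK : ({u, v, b, c} : Finset W).card = 4 := by
    rw [Finset.card_insert_of_notMem (by simp [huv, hbu.symm, hcu.symm]),
      Finset.card_insert_of_notMem (by simp [hb.1.symm, hc.1.symm]), Finset.card_pair hbc]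
  have := tetra h {u, v, b, c} hK (by
    intro x hx
    simp only [Finset.mem_insert, Finset.mem_singleton] at hx
    rcases hx with rfl | rfl | rfl | rfl
    · have : ({x, v, b, c} : Finset W).erase x = {v, b, c} := by
        ext z
        simp only [Finset.mem_erase, Finset.mem_insert, Finset.mem_singleton]
        constructor
        · rintro ⟨h1, h2 | h2 | h2 | h2⟩ <;> tauto
        · rintro (h1 | h1 | h1) <;> subst h1 <;> tauto
      rw [this, ← hf1]
      exact hf
    · have : ({u, x, b, c} : Finset W).erase x = {u, b, c} := by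
        ext z
        simp only [Finset.mem_erase, Finset.mem_insert, Finset.mem_singleton]
        constructor
        · rintro ⟨h1, h2 | h2 | h2 | h2⟩ <;> tauto
        · rintro (h1 | h1 | h1) <;> subst h1 <;> tauto
      rw [this, ← hf2]
      exact hf'
    · have : ({u, v, x, c} : Finset W).erase x = {u, v, c} := by
        ext z
        simp only [Finset.mem_erase, Finset.mem_insert, Finset.mem_singleton]
        constructor
        · rintro ⟨h1, h2 | h2 | h2 | h2⟩ <;> tauto
        · rintro (h1 | h1 | h1) <;> subst h1 <;> tauto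
      rw [this]
      exact hfc
    · have : ({u, v, b, x} : Finset W).erase x = {u, v, b} := by
        ext z
        simp only [Finset.mem_erase, Finset.mem_insert, Finset.mem_singleton]
        constructor
        · rintro ⟨h1, h2 | h2 | h2 | h2⟩ <;> tauto
        · rintro (h1 | h1 | h1) <;> subst h1 <;> tauto
      rw [this]
      exact hfb)
  omega

theorem inj {Φ : Finset (Finset W)} {u v : W} (h : IsTri Φ) (huv : u ≠ v)
    (hG : Good Φ u v) (h5 : 5 ≤ (vts Φ).card) :
    Set.InjOn (mv u v) {f : Finset W | f ∈ Φ ∧ ¬ ({u, v} ⊆ f)} := by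
  have key : ∀ f : Finset W, ¬ ({u, v} ⊆ f) → v ∈ f → u ∉ f := by
    intro f hf hv hu
    apply hf
    intro z hz
    simp only [Finset.mem_insert, Finset.mem_singleton] at hz
    rcases hz with rfl | rfl <;> assumption
  rintro f ⟨hf, hfn⟩ f' ⟨hf', hfn'⟩ he
  unfold mv at he
  by_cases hv : v ∈ f <;> by_cases hv' : v ∈ f'
  · rw [if_pos hv, if_pos hv'] at he
    have hu := key f hfn hv
    have hu' := key f' hfn' hv'
    have h1 : f.erase v = f'.erase v := by
      have := congrArg (fun s => s.erase u) he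
      simpa [Finset.erase_insert (show u ∉ f.erase v from fun hh => hu (Finset.mem_of_mem_erase hh)),
        Finset.erase_insert (show u ∉ f'.erase v from fun hh => hu' (Finset.mem_of_mem_erase hh))]
        using this
    rw [← Finset.insert_erase hv, ← Finset.insert_erase hv', h1]
  · rw [if_pos hv, if_neg hv'] at he
    exact (no_dup h huv hG h5 f f' hf hf' hv (key f hfn hv) he).elim
  · rw [if_neg hv, if_pos hv'] at he
    exact (no_dup h huv hG h5 f' f hf' hf hv' (key f' hfn' hv') he.symm).elim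
  · rw [if_neg hv, if_neg hv'] at he
    exact he

end

theorem APEX : S_APEX := by
  intro W _ Φ u v h huv he hG h5
  obtain ⟨f1, f2, hne, hfc⟩ := Finset.card_eq_two.1 (h.two _ he)
  have m1 : f1 ∈ fc Φ {u, v} := by rw [hfc]; simp
  have m2 : f2 ∈ fc Φ {u, v} := by rw [hfc]; simp
  rw [mem_fc] at m1 m2
  obtain ⟨y1, hy1u, hy1v, e1⟩ := third (h.three f1 m1.1) (m1.2 (by simp)) (m1.2 (by simp)) huv
  obtain ⟨y2, hy2u, hy2v, e2⟩ := third (h.three f2 m2.1) (m2.2 (by simp)) (m2.2 (by simp)) huv
  have hy : y1 ≠ y2 := by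
    intro hh
    apply hne
    rw [e1, e2, hh]
  obtain ⟨g1, hg1, vg1⟩ := other h (p := u) (q := y1) (r := v) hy1u.symm huv.symm hy1v.symm m1.1
    (by rw [e1]; simp) (by rw [e1]; simp) (by rw [e1]; simp)
  obtain ⟨h1, hh1, uh1⟩ := other h (p := v) (q := y1) (r := u) hy1v.symm huv hy1u.symm m1.1
    (by rw [e1]; simp) (by rw [e1]; simp) (by rw [e1]; simp)
  obtain ⟨g2, hg2, vg2⟩ := other h (p := u) (q := y2) (r := v) hy2u.symm huv.symm hy2v.symm m2.1
    (by rw [e2]; simp) (by rw [e2]; simp) (by rw [e2]; simp)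
  obtain ⟨h2, hh2, uh2⟩ := other h (p := v) (q := y2) (r := u) hy2v.symm huv hy2u.symm m2.1
    (by rw [e2]; simp) (by rw [e2]; simp) (by rw [e2]; simp)
  refine ⟨y1, y2, g1, g2, h1, h2, inj h huv hG h5, hy, hy1u, hy1v, hy2u, hy2v, ?_, ?_, ?_, ?_, ?_,
    ?_, vg1, uh1, vg2, uh2⟩
  · rw [hfc, e1, e2]
  · intro w hwu hwv
    constructor
    · rintro ⟨ha, hb⟩
      have hw : {u, v, w} ∈ fc Φ {u, v} := mem_fc.2 ⟨hG w hwu hwv ha hb, by
        intro z hz
        simp only [Finset.mem_insert, Finset.mem_singleton] at hz ⊢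
        tauto⟩
      rw [hfc, Finset.mem_insert, Finset.mem_singleton, e1, e2] at hw
      rcases hw with hw | hw
      · left
        have : w ∈ ({u, v, y1} : Finset W) := by rw [← hw]; simp
        simpa [hwu, hwv] using this
      · right
        have : w ∈ ({u, v, y2} : Finset W) := by rw [← hw]; simp
        simpa [hwu, hwv] using this
    · rintro (rfl | rfl)
      · exact ⟨pair_mem_edg m1.1 (by rw [e1]; simp) (by rw [e1]; simp) hy1u.symm,
          pair_mem_edg m1.1 (by rw [e1]; simp) (by rw [e1]; simp) hy1v.symm⟩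
      · exact ⟨pair_mem_edg m2.1 (by rw [e2]; simp) (by rw [e2]; simp) hy2u.symm,
          pair_mem_edg m2.1 (by rw [e2]; simp) (by rw [e2]; simp) hy2v.symm⟩
  · rw [hg1, e1]
  · rw [hh1, e1]
  · rw [hg2, e2]
  · rw [hh2, e2]

end Pool.Agent.R18.HB
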